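import Pool.Agent.Helper33.CKC.Final
import Pool.Agent.Helper96.CKF.Cov
set_option autoImplicit false
open Complex MeasureTheory Metric Set
open scoped Real ComplexConjugate

/-!
# Project CKC: the regions of the sectors, in the form of the final statement

`T = 1` is the closed left half plane.
-/

namespace Pool.Agent.Helper33.CKC

open Pool.Agent.Helper58.CKC
open Pool.Agent.Helper96.CKF (LowC)

/-- upper and lower bound in the region of a sector -/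
theorem sec_both {a b T : ℝ} (ha : 1 < a) (hb : 0 ≤ b) (hT : 0 ≤ T) (H : SecH a b T) {t : ℂ}
    (ht : t ≠ 0) (h1 : ‖t‖ + t.re ≤ T ^ 2 * (‖t‖ - t.re))
    (h2 : a * (‖t‖ - t.re) + b * (‖t‖ + t.re) ≤ ‖t‖ * (‖t‖ - t.re)) {e : ℝ} (he : 0 < e) :
    SigC t (‖t‖ - 1 + e) ∧ LowC t (‖t‖ - 1) :=
  ⟨(sec_all ha hb hT H ht ⟨h1, h2⟩).1 e he, (sec_all ha hb hT H ht ⟨h1, h2⟩).2⟩

/-- upper and lower bound in the closed left half plane, integer constants `kA / kD`, `kB / kD` -/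
theorem left_both {kA kB kD : ℝ} (hD : 0 < kD) (hA : kD < kA) (hB : 0 ≤ kB)
    (H : SecH (kA / kD) (kB / kD) (1 / 1)) {t : ℂ} (ht : t ≠ 0) (hre : t.re ≤ 0)
    (h2 : kA * (‖t‖ - t.re) + kB * (‖t‖ + t.re) ≤ kD * ‖t‖ * (‖t‖ - t.re)) {e : ℝ} (he : 0 < e) :
    SigC t (‖t‖ - 1 + e) ∧ LowC t (‖t‖ - 1) := by
  refine sec_both ((one_lt_div hD).2 hA) (div_nonneg hB hD.le) (by norm_num) H ht ?_ ?_ he
  · have : ((1:ℝ) / 1) ^ 2 = 1 := by norm_num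
    rw [this]
    linarith
  · have e1 : kA / kD * (‖t‖ - t.re) + kB / kD * (‖t‖ + t.re) =
        (kA * (‖t‖ - t.re) + kB * (‖t‖ + t.re)) / kD := by
      field_simp
    rw [e1, div_le_iff₀ hD]
    linarith

/-- a sector `0 ≤ ta ≤ Tn / Td`, integer constants -/
theorem part_both {kA kB kD Tn Td : ℝ} (hD : 0 < kD) (hA : kD < kA) (hB : 0 ≤ kB) (hTn : 0 ≤ Tn)
    (hTd : 0 < Td) (H : SecH (kA / kD) (kB / kD) (Tn / Td)) {t : ℂ} (ht : t ≠ 0)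
    (hre : Td ^ 2 * (‖t‖ + t.re) ≤ Tn ^ 2 * (‖t‖ - t.re))
    (h2 : kA * (‖t‖ - t.re) + kB * (‖t‖ + t.re) ≤ kD * ‖t‖ * (‖t‖ - t.re)) {e : ℝ} (he : 0 < e) :
    SigC t (‖t‖ - 1 + e) ∧ LowC t (‖t‖ - 1) := by
  refine sec_both ((one_lt_div hD).2 hA) (div_nonneg hB hD.le) (div_nonneg hTn hTd.le) H ht ?_ ?_ he
  · rw [div_pow, div_mul_eq_mul_div, le_div_iff₀ (by positivity)]
    linarith
  · have e1 : kA / kD * (‖t‖ - t.re) + kB / kD * (‖t‖ + t.re) =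
        (kA * (‖t‖ - t.re) + kB * (‖t‖ + t.re)) / kD := by
      field_simp
    rw [e1, div_le_iff₀ hD]
    linarith

/-- **the final statement of version 5**, from its three ingredients -/
theorem result_of (cover : Pool.Agent.Helper96.EKC.Cover)
    (secH : SecH (24213 / 10000) (4606 / 10000) (1 / 1))
    (means : ∀ p : ℝ, 43 / 20 ≤ p → ∀ e : ℝ, 0 < e → ∃ C : ℝ, ∀ ψ : ℂ → ℂ,
      DifferentiableOn ℂ ψ {z : ℂ | 1 < ‖z‖} → InjOn ψ {z : ℂ | 1 < ‖z‖} →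
      (∃ b : ℂ, Filter.Tendsto (fun z => ψ z - z) (Bornology.cobounded ℂ) (nhds b)) →
      ∀ R : ℝ, 1 < R →
      (2 * π)⁻¹ * (∫ θ in (0:ℝ)..(2 * π), ‖deriv ψ (R * Complex.exp (θ * I))‖ ^ (-p)) ≤
        C * (R ^ 2 / (R ^ 2 - 1)) ^ (p - 1 + e)) :
    ∀ t : ℂ, t ≠ 0 → ∀ e : ℝ, 0 ≤ e →
      (9 * (3 * ‖t‖ - t.re) ≤ 4 * ‖t‖ * (‖t‖ - t.re) ∨
        (0 < e ∧ t.re ≤ 0 ∧
          24213 * (‖t‖ - t.re) + 4606 * (‖t‖ + t.re) ≤ 10000 * ‖t‖ * (‖t‖ - t.re)) ∨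
        (0 < e ∧ t.im = 0 ∧ t.re ≤ -(43 / 20))) →
      (∃ C : ℝ, ∀ ψ h : ℂ → ℂ,
        DifferentiableOn ℂ ψ {z : ℂ | 1 < ‖z‖} →
        Set.InjOn ψ {z : ℂ | 1 < ‖z‖} →
        (∃ b : ℂ, Filter.Tendsto (fun z => ψ z - z) (Bornology.cobounded ℂ) (nhds b)) →
        DifferentiableOn ℂ h {z : ℂ | 1 < ‖z‖} →
        (∀ z : ℂ, 1 < ‖z‖ → Complex.exp (h z) = deriv ψ z) →
        Filter.Tendsto h (Bornology.cobounded ℂ) (nhds 0) →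
        ∀ R : ℝ, 1 < R →
          (2 * Real.pi)⁻¹ * (∫ θ in (0:ℝ)..(2 * Real.pi),
            ‖Complex.exp (t * h (R * Complex.exp (θ * Complex.I)))‖) ≤
            C * (R ^ 2 / (R ^ 2 - 1)) ^ (‖t‖ - 1 + e)) ∧
      ∃ ψ h : ℂ → ℂ,
        DifferentiableOn ℂ ψ {z : ℂ | 1 < ‖z‖} ∧
        Set.InjOn ψ {z : ℂ | 1 < ‖z‖} ∧
        (∃ b : ℂ, Filter.Tendsto (fun z => ψ z - z) (Bornology.cobounded ℂ) (nhds b)) ∧
        DifferentiableOn ℂ h {z : ℂ | 1 < ‖z‖} ∧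
        (∀ z : ℂ, 1 < ‖z‖ → Complex.exp (h z) = deriv ψ z) ∧
        Filter.Tendsto h (Bornology.cobounded ℂ) (nhds 0) ∧
        ∃ c : ℝ, 0 < c ∧ ∀ R : ℝ, 1 < R →
          c * (R ^ 2 / (R ^ 2 - 1)) ^ (‖t‖ - 1) ≤
            (2 * Real.pi)⁻¹ * (∫ θ in (0:ℝ)..(2 * Real.pi),
              ‖Complex.exp (t * h (R * Complex.exp (θ * Complex.I)))‖) := by
  rintro t ht0 e he (hreg | ⟨he0, hre, hreg⟩ | ⟨he0, him, hre⟩)
  · exact ⟨Pool.Agent.Helper96.CKF.sig_cover cover ht0 hreg he,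
      Pool.Agent.Helper96.CKF.lowC (Pool.Agent.Helper96.CKF.reg_low ht0 hreg).1
        (Pool.Agent.Helper96.CKF.reg_low ht0 hreg).2⟩
  · exact left_both (by norm_num) (by norm_num) (by norm_num) secH ht0 hre hreg he0
  · exact Pool.Agent.Helper96.CKF.real_both (by norm_num) means him hre he0

end Pool.Agent.Helper33.CKC
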