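import Pool.Agent.Helper58.CKC.FinC
import Pool.Agent.Helper96.EKC.Asm3
set_option autoImplicit false
open Complex MeasureTheory Metric Set
open scoped Real ComplexConjugate

/-!
# Project CKC: the final theorem

Symmetry `t ↦ conj t`, all directions of a sector from the parameter `ta = tan (φ / 2)`, the real
ray, and the lower bound.
-/

namespace Pool.Agent.Helper33.CKC

open Pool.Agent.Helper58.CKC

theorem one_le_base {R : ℝ} (hR : 1 < R) : 1 ≤ R ^ 2 / (R ^ 2 - 1) := by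
  have h : 0 < R ^ 2 - 1 := by nlinarith
  rw [le_div_iff₀ h]
  linarith

theorem SigC.mono {t : ℂ} {s s' : ℝ} (h : SigC t s) (hs : s ≤ s') : SigC t s' := by
  obtain ⟨C, hC⟩ := h
  refine ⟨|C|, fun ψ h a1 a2 a3 a4 a5 a6 R hR => (hC ψ h a1 a2 a3 a4 a5 a6 R hR).trans ?_⟩
  have h1 := one_le_base hR
  have h0 : 0 ≤ (R ^ 2 / (R ^ 2 - 1)) ^ s := Real.rpow_nonneg (by linarith) _
  calc C * (R ^ 2 / (R ^ 2 - 1)) ^ s ≤ |C| * (R ^ 2 / (R ^ 2 - 1)) ^ s :=
        mul_le_mul_of_nonneg_right (le_abs_self C) h0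
    _ ≤ |C| * (R ^ 2 / (R ^ 2 - 1)) ^ s' :=
        mul_le_mul_of_nonneg_left (Real.rpow_le_rpow_of_exponent_le h1 hs) (abs_nonneg C)

theorem ext_conj {z : ℂ} (hz : 1 < ‖z‖) : 1 < ‖conj z‖ := by
  rwa [RCLike.norm_conj]

theorem isOpen_out : IsOpen {z : ℂ | 1 < ‖z‖} := isOpen_lt continuous_const continuous_norm

theorem diff_conj {f : ℂ → ℂ} (hf : DifferentiableOn ℂ f {z : ℂ | 1 < ‖z‖}) :
    DifferentiableOn ℂ (fun z => conj (f (conj z))) {z : ℂ | 1 < ‖z‖} := by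
  intro z hz
  have h1 : DifferentiableAt ℂ f (conj z) :=
    hf.differentiableAt (isOpen_out.mem_nhds (ext_conj hz))
  have h2 := h1.conj_conj
  rw [Complex.conj_conj] at h2
  exact h2.differentiableWithinAt

theorem deriv_conj_out {f : ℂ → ℂ} (hf : DifferentiableOn ℂ f {z : ℂ | 1 < ‖z‖}) {z : ℂ}
    (hz : 1 < ‖z‖) : deriv (fun z => conj (f (conj z))) z = conj (deriv f (conj z)) := by
  have h1 : DifferentiableAt ℂ f (conj z) :=
    hf.differentiableAt (isOpen_out.mem_nhds (ext_conj hz))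
  have h2 := h1.hasDerivAt.conj_conj
  rw [Complex.conj_conj] at h2
  exact h2.deriv

theorem tendsto_conj_cob : Filter.Tendsto (fun z : ℂ => conj z) (Bornology.cobounded ℂ)
    (Bornology.cobounded ℂ) := by
  rw [← tendsto_norm_atTop_iff_cobounded]
  simp only [RCLike.norm_conj]
  exact tendsto_norm_cobounded_atTop

/-- the class is invariant under reflection -/
theorem SigC.conj {t : ℂ} {s : ℝ} (H : SigC t s) : SigC (conj t) s := by
  obtain ⟨C, hC⟩ := H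
  refine ⟨C, fun ψ h a1 a2 a3 a4 a5 a6 R hR => ?_⟩
  obtain ⟨b, hb⟩ := a3
  have b2 : InjOn (fun z => (starRingEnd ℂ) (ψ ((starRingEnd ℂ) z))) {z : ℂ | 1 < ‖z‖} := by
    intro z hz w hw hzw
    have h1 := (starRingEnd ℂ).injective hzw
    have h2 := a2 (ext_conj hz) (ext_conj hw) h1
    exact (starRingEnd ℂ).injective h2
  have b3 : Filter.Tendsto (fun z => (starRingEnd ℂ) (ψ ((starRingEnd ℂ) z)) - z)
      (Bornology.cobounded ℂ) (nhds ((starRingEnd ℂ) b)) := by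
    have h1 := ((Complex.continuous_conj.tendsto b).comp hb).comp tendsto_conj_cob
    refine h1.congr fun z => ?_
    simp only [Function.comp_apply, map_sub, Complex.conj_conj]
  have b6 : Filter.Tendsto (fun z => (starRingEnd ℂ) (h ((starRingEnd ℂ) z)))
      (Bornology.cobounded ℂ) (nhds 0) := by
    have h1 := ((Complex.continuous_conj.tendsto 0).comp a6).comp tendsto_conj_cob
    rw [map_zero] at h1
    exact h1
  have h1 := hC (fun z => (starRingEnd ℂ) (ψ ((starRingEnd ℂ) z)))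
    (fun z => (starRingEnd ℂ) (h ((starRingEnd ℂ) z))) (diff_conj a1) b2 ⟨_, b3⟩ (diff_conj a4)
    (fun z hz => by
      rw [deriv_conj_out a1 hz, Complex.exp_conj, a5 _ (ext_conj hz)]) b6 R hR
  refine le_of_eq_of_le ?_ h1
  congr 1
  have e1 : ∀ θ : ℝ, ‖Complex.exp (t * (starRingEnd ℂ) (h ((starRingEnd ℂ)
      (R * Complex.exp (θ * I)))))‖ =
      ‖Complex.exp ((starRingEnd ℂ) t * h (R * Complex.exp ((-θ : ℝ) * I)))‖ := by
    intro θ
    rw [Complex.norm_exp, Complex.norm_exp]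
    have h2 : (starRingEnd ℂ) (R * Complex.exp (θ * I)) = R * Complex.exp ((-θ : ℝ) * I) := by
      rw [map_mul, Complex.conj_ofReal, ← Complex.exp_conj, map_mul, Complex.conj_ofReal, conj_I]
      push_cast
      ring_nf
    rw [h2]
    have h3 : t * (starRingEnd ℂ) (h (R * Complex.exp ((-θ : ℝ) * I))) =
        (starRingEnd ℂ) ((starRingEnd ℂ) t * h (R * Complex.exp ((-θ : ℝ) * I))) := by
      rw [map_mul, Complex.conj_conj]
    rw [h3, Complex.conj_re]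
  simp only [e1]
  obtain ⟨g, hg⟩ : ∃ g : ℝ → ℝ, g = fun θ =>
      ‖Complex.exp ((starRingEnd ℂ) t * h (R * Complex.exp ((θ : ℝ) * I)))‖ := ⟨_, rfl⟩
  have e2 : ∫ θ in (0:ℝ)..(2 * π), ‖Complex.exp ((starRingEnd ℂ) t *
      h (R * Complex.exp ((-θ : ℝ) * I)))‖ = ∫ θ in (0:ℝ)..(2 * π), g (-θ) := by
    rw [hg]
  rw [e2, intervalIntegral.integral_comp_neg]
  have hper : Function.Periodic g (2 * π) := by
    intro θ
    rw [hg]
    simp only
    congr 4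
    push_cast
    rw [add_mul, Complex.exp_add, Complex.exp_two_pi_mul_I, mul_one]
  have e3 := hper.intervalIntegral_add_eq (-(2 * π)) 0
  rw [zero_add, neg_add_cancel] at e3
  rw [neg_zero, e3, hg]

/-- all directions of a sector -/
theorem sector_of {a b T : ℝ} (hT : 0 ≤ T)
    (H : ∀ ta : ℝ, 0 ≤ ta → ta ≤ T → ∀ t : ℂ, a + b * ta ^ 2 ≤ ‖t‖ →
      t = -((‖t‖ : ℂ) * (starRingEnd ℂ) ((1 + ta * I) / (1 - ta * I))) →
      ∀ e : ℝ, 0 < e → SigC t (‖t‖ - 1 + e)) :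
    ∀ t : ℂ, t ≠ 0 → ‖t‖ + t.re ≤ T ^ 2 * (‖t‖ - t.re) →
      a * (‖t‖ - t.re) + b * (‖t‖ + t.re) ≤ ‖t‖ * (‖t‖ - t.re) →
      ∀ e : ℝ, 0 < e → SigC t (‖t‖ - 1 + e) := by
  have key : ∀ t : ℂ, t ≠ 0 → 0 ≤ t.im → ‖t‖ + t.re ≤ T ^ 2 * (‖t‖ - t.re) →
      a * (‖t‖ - t.re) + b * (‖t‖ + t.re) ≤ ‖t‖ * (‖t‖ - t.re) →
      ∀ e : ℝ, 0 < e → SigC t (‖t‖ - 1 + e) := by
    intro t ht him h1 h2
    have hn : 0 < ‖t‖ := norm_pos_iff.2 ht
    have hre : t.re ≤ ‖t‖ := Complex.re_le_norm t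
    have hd : 0 < ‖t‖ - t.re := by
      rcases hre.lt_or_eq with h | h
      · linarith
      · rw [← h] at h1
        have : T ^ 2 * (t.re - t.re) = 0 := by ring
        rw [this] at h1
        rw [← h] at hn
        linarith
    have hsq : ‖t‖ ^ 2 = t.re ^ 2 + t.im ^ 2 := by
      rw [← Complex.normSq_eq_norm_sq, Complex.normSq_apply]
      ring
    obtain ⟨n, hn'⟩ : ∃ n, n = ‖t‖ := ⟨_, rfl⟩
    obtain ⟨d, hd'⟩ : ∃ d, d = n - t.re := ⟨_, rfl⟩
    rw [← hn'] at hn hd hsq h1 h2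
    rw [← hd'] at hd h1 h2
    have hta0 : 0 ≤ t.im / d := div_nonneg him hd.le
    have hta2 : (t.im / d) ^ 2 = (n + t.re) / d := by
      rw [div_pow, div_eq_div_iff (by positivity) hd.ne']
      rw [hd'] at hd ⊢
      have : t.im ^ 2 = (n + t.re) * (n - t.re) := by nlinarith
      rw [this]
      ring
    have htaT : t.im / d ≤ T := by
      refine abs_le_of_sq_le_sq' ?_ hT |>.2
      rw [hta2, div_le_iff₀ hd]
      exact h1
    refine H (t.im / d) hta0 htaT t ?_ ?_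
    · rw [hta2, ← hn']
      have e1 : a + b * ((n + t.re) / d) = (a * d + b * (n + t.re)) / d := by
        field_simp
      rw [e1, div_le_iff₀ hd]
      exact h2
    · rw [← hn']
      have hne : (1 : ℂ) + ((t.im / d : ℝ) : ℂ) * I ≠ 0 := by
        intro h
        have := congrArg Complex.re h
        simp at this
      have e1 : (starRingEnd ℂ) ((1 + ((t.im / d : ℝ) : ℂ) * I) /
          (1 - ((t.im / d : ℝ) : ℂ) * I)) =
          (1 - ((t.im / d : ℝ) : ℂ) * I) / (1 + ((t.im / d : ℝ) : ℂ) * I) := by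
        rw [map_div₀, map_add, map_sub, map_one, map_mul, Complex.conj_ofReal, conj_I]
        congr 1 <;> ring
      rw [e1, ← neg_mul, ← mul_div_assoc, eq_div_iff hne]
      have s1 : t.im = d * (t.im / d) := by
        field_simp
      have s2 : t.im * (t.im / d) = n + t.re := by
        have : t.im * (t.im / d) = d * (t.im / d) ^ 2 := by
          rw [div_pow]
          field_simp
        rw [this, hta2]
        field_simp
      obtain ⟨τ, hτ⟩ : ∃ τ, τ = t.im / d := ⟨_, rfl⟩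
      rw [← hτ] at s1 s2 ⊢
      apply Complex.ext
      · simp only [mul_re, mul_im, add_re, add_im, sub_re, sub_im, neg_re, neg_im, one_re, one_im,
          ofReal_re, ofReal_im, I_re, I_im]
        linarith
      · simp only [mul_re, mul_im, add_re, add_im, sub_re, sub_im, neg_re, neg_im, one_re, one_im,
          ofReal_re, ofReal_im, I_re, I_im]
        rw [hd'] at s1
        linarith
  intro t ht h1 h2 e he
  rcases le_total 0 t.im with him | him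
  · exact key t ht him h1 h2 e he
  · have hc : (starRingEnd ℂ) t ≠ 0 := by
      rw [Ne, map_eq_zero]
      exact ht
    have hn : ‖(starRingEnd ℂ) t‖ = ‖t‖ := RCLike.norm_conj t
    have h3 := key ((starRingEnd ℂ) t) hc (by rw [Complex.conj_im]; linarith)
      (by rw [hn, Complex.conj_re]; exact h1) (by rw [hn, Complex.conj_re]; exact h2) e he
    rw [hn] at h3
    have h4 := SigC.conj h3
    rwa [Complex.conj_conj] at h4

/-- the real ray, from the moments with every loss `e` -/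
theorem real_of {κ : ℝ} (hκ : 0 < κ)
    (hm : ∀ p : ℝ, κ ≤ p → ∀ e : ℝ, 0 < e → ∃ C : ℝ, ∀ ψ : ℂ → ℂ,
      DifferentiableOn ℂ ψ {z : ℂ | 1 < ‖z‖} → InjOn ψ {z : ℂ | 1 < ‖z‖} →
      (∃ b : ℂ, Filter.Tendsto (fun z => ψ z - z) (Bornology.cobounded ℂ) (nhds b)) →
      ∀ R : ℝ, 1 < R →
      (2 * π)⁻¹ * (∫ θ in (0:ℝ)..(2 * π), ‖deriv ψ (R * Complex.exp (θ * I))‖ ^ (-p)) ≤
        C * (R ^ 2 / (R ^ 2 - 1)) ^ (p - 1 + e)) {t : ℂ} (him : t.im = 0) (hre : t.re ≤ -κ)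
    {e : ℝ} (he : 0 < e) : SigC t (‖t‖ - 1 + e) := by
  have hn : ‖t‖ = -t.re := Pool.Agent.Helper96.EKC.re_abs him (by linarith)
  have ht : t = ((-(-t.re) : ℝ) : ℂ) := by
    apply Complex.ext
    · simp
    · simp [him]
  obtain ⟨C, hC⟩ := hm (-t.re) (by linarith) e he
  refine ⟨C, fun ψ h a1 a2 a3 a4 a5 a6 R h1 => ?_⟩
  have h2 := hC ψ a1 a2 a3 R h1
  rw [hn]
  refine le_of_eq_of_le ?_ h2
  congr 1
  refine intervalIntegral.integral_congr fun θ _ => ?_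
  refine Pool.Agent.Helper96.EKC.norm_exp_pow ht (a5 _ ?_)
  rw [norm_mul, Complex.norm_exp_ofReal_mul_I, mul_one, Complex.norm_real, Real.norm_eq_abs]
  exact lt_of_lt_of_le h1 (le_abs_self R)

/-- the lower bound of the spectrum is attained in the class -/
def Low (t : ℂ) : Prop :=
  ∃ ψ h : ℂ → ℂ, DifferentiableOn ℂ ψ {z : ℂ | 1 < ‖z‖} ∧
    InjOn ψ {z : ℂ | 1 < ‖z‖} ∧
    (∃ b : ℂ, Filter.Tendsto (fun z => ψ z - z) (Bornology.cobounded ℂ) (nhds b)) ∧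
    DifferentiableOn ℂ h {z : ℂ | 1 < ‖z‖} ∧
    (∀ z : ℂ, 1 < ‖z‖ → Complex.exp (h z) = deriv ψ z) ∧
    Filter.Tendsto h (Bornology.cobounded ℂ) (nhds 0) ∧
    ∃ c : ℝ, 0 < c ∧ ∀ R : ℝ, 1 < R →
      c * (R ^ 2 / (R ^ 2 - 1)) ^ (‖t‖ - 1) ≤
        (2 * π)⁻¹ *
          (∫ θ in (0:ℝ)..(2 * π), ‖Complex.exp (t * h (R * Complex.exp (θ * I)))‖)

/-- the lower bound, for every `t` with `|t| > 1` which is not positive -/
theorem low {t : ℂ} (h1 : 1 < ‖t‖) (hne : t.re < ‖t‖) : Low t := by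
  have hn0 : 0 < ‖t‖ := by linarith
  obtain ⟨u, hu⟩ : ∃ u : ℂ, u = -((starRingEnd ℂ) t / ‖t‖) := ⟨_, rfl⟩
  have hu1 : ‖u‖ = 1 := by
    rw [hu, norm_neg, norm_div, RCLike.norm_conj, Complex.norm_real, norm_norm, div_self hn0.ne']
  have hre : u.re = -(t.re / ‖t‖) := by
    rw [hu, Complex.neg_re, Complex.div_ofReal_re, Complex.conj_re]
  have hne1 : u ≠ -1 := by
    intro h
    have h1 : u.re = -1 := by rw [h]; simp
    rw [hre] at h1
    have h2 : t.re / ‖t‖ = 1 := by linarith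
    rw [div_eq_one_iff_eq hn0.ne'] at h2
    linarith
  obtain ⟨ψ, h, a1, a2, a3, a4, a5, a6, a7⟩ := Pool.Agent.Helper97.EKC.sharp_u hu1 hne1
  obtain ⟨c, hc, hR⟩ := a7 ‖t‖ h1
  refine ⟨ψ, h, a1, a2, a3, a4, a5, a6, c, hc, fun R h1 => ?_⟩
  have h2 := hR R h1
  have hnC : (‖t‖ : ℂ) ≠ 0 := by exact_mod_cast hn0.ne'
  have h7 : -((‖t‖ : ℝ) : ℂ) * (starRingEnd ℂ) u = t := by
    rw [hu, map_neg, map_div₀, Complex.conj_conj, Complex.conj_ofReal]
    field_simp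
  simp only [Complex.norm_exp]
  simp only [h7] at h2
  exact h2

/-! ### the three kinds of regions, upper and lower bound together -/

/-- the hypothesis for a sector: `ta = tan (φ / 2)`, `u = e^(iφ) = (1 + i ta) / (1 - i ta)` -/
def SecH (a b T : ℝ) : Prop :=
  ∀ ta : ℝ, 0 ≤ ta → ta ≤ T → ∀ t : ℂ, a + b * ta ^ 2 ≤ ‖t‖ →
    t = -((‖t‖ : ℂ) * (starRingEnd ℂ) ((1 + ta * I) / (1 - ta * I))) →
    ∀ e : ℝ, 0 < e → SigC t (‖t‖ - 1 + e)

/-- the region of a sector: `T = 1` is `Re t ≤ 0` -/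
def Sec (a b T : ℝ) (t : ℂ) : Prop :=
  ‖t‖ + t.re ≤ T ^ 2 * (‖t‖ - t.re) ∧
    a * (‖t‖ - t.re) + b * (‖t‖ + t.re) ≤ ‖t‖ * (‖t‖ - t.re)

theorem sec_all {a b T : ℝ} (ha : 1 < a) (hb : 0 ≤ b) (hT : 0 ≤ T) (H : SecH a b T) {t : ℂ}
    (ht : t ≠ 0) (h : Sec a b T t) : (∀ e : ℝ, 0 < e → SigC t (‖t‖ - 1 + e)) ∧ Low t := by
  obtain ⟨h1, h2⟩ := h
  refine ⟨sector_of hT H t ht h1 h2, ?_⟩
  have hn : 0 < ‖t‖ := norm_pos_iff.2 ht
  have hre : t.re ≤ ‖t‖ := Complex.re_le_norm t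
  have hre2 : -‖t‖ ≤ t.re := (abs_le.1 (Complex.abs_re_le_norm t)).1
  have hlt : t.re < ‖t‖ := by
    rcases hre.lt_or_eq with h | h
    · exact h
    · exfalso
      have h3 : ‖t‖ - t.re = 0 := by linarith
      rw [h3, mul_zero] at h1
      linarith
  refine low ?_ hlt
  have hd : 0 < ‖t‖ - t.re := by linarith
  have hb' : 0 ≤ b * (‖t‖ + t.re) := mul_nonneg hb (by linarith)
  have h3 : a * (‖t‖ - t.re) ≤ ‖t‖ * (‖t‖ - t.re) := by linarith
  have h4 := le_of_mul_le_mul_right h3 hd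
  linarith

theorem real_all {κ : ℝ} (hκ : 1 < κ)
    (hm : ∀ p : ℝ, κ ≤ p → ∀ e : ℝ, 0 < e → ∃ C : ℝ, ∀ ψ : ℂ → ℂ,
      DifferentiableOn ℂ ψ {z : ℂ | 1 < ‖z‖} → InjOn ψ {z : ℂ | 1 < ‖z‖} →
      (∃ b : ℂ, Filter.Tendsto (fun z => ψ z - z) (Bornology.cobounded ℂ) (nhds b)) →
      ∀ R : ℝ, 1 < R →
      (2 * π)⁻¹ * (∫ θ in (0:ℝ)..(2 * π), ‖deriv ψ (R * Complex.exp (θ * I))‖ ^ (-p)) ≤
        C * (R ^ 2 / (R ^ 2 - 1)) ^ (p - 1 + e)) {t : ℂ} (him : t.im = 0) (hre : t.re ≤ -κ) :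
    (∀ e : ℝ, 0 < e → SigC t (‖t‖ - 1 + e)) ∧ Low t := by
  refine ⟨fun e he => real_of (by linarith) hm him hre he, low ?_ ?_⟩
  · rw [Pool.Agent.Helper96.EKC.re_abs him (by linarith)]
    linarith
  · rw [Pool.Agent.Helper96.EKC.re_abs him (by linarith)]
    linarith

theorem cover_all (cover : Pool.Agent.Helper96.EKC.Cover) {t : ℂ} (ht : t ≠ 0)
    (hreg : 9 * (3 * ‖t‖ - t.re) ≤ 4 * ‖t‖ * (‖t‖ - t.re)) :
    (∀ e : ℝ, 0 < e → SigC t (‖t‖ - 1 + e)) ∧ Low t :=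
  ⟨fun _ he => SigC.mono (Pool.Agent.Helper96.EKC.upper cover ht hreg) (by linarith),
    Pool.Agent.Helper96.EKC.lower ht hreg⟩

end Pool.Agent.Helper33.CKC
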