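import Pool.Agent.Helper52.CKC.MainC
import Pool.Agent.Helper69.CKC.PTC
import Pool.Agent.Helper33.CKC.Final
set_option autoImplicit false
open Complex MeasureTheory Metric Set
open scoped Real ComplexConjugate

/-! Project CKC: from the pointwise certificate in the direction `u` to the class Σ. -/

namespace Pool.Agent.Helper33.CKC

open Pool.Agent.Helper39.Area Pool.Agent.Helper52.EK Pool.Agent.Helper52.CK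
open Pool.Agent.Helper69.CKC Pool.Agent.Helper97.CKC
open Pool.Agent.Helper69.CK (MOk Mh MtC)

/-- from the pointwise inequality to the class Σ, all `t` with `|t| ≥ κ` in the direction of `u` -/
theorem sigC_of_point {k₂ lam dl κ L₀ B Mb Lm ε₀ : ℝ} {u : ℂ} (hu : ‖u‖ = 1) (line : LineC u)
    (h1 : 1 ≤ κ) (hB : 0 ≤ B) (hlam : 0 ≤ lam) (hk₂ : lam ≤ k₂) (hdl : 0 ≤ dl) (hκ : k₂ < 2 * κ)
    {G M M' : ℂ → ℂ} (hG : GLip G L₀) (hM : MOk M M' Mb Lm ε₀) (hMb2 : Mb < 2 * κ) (hε₀ : 0 < ε₀)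
    {Nl : (ℂ → ℂ) → ℝ → ℝ → ℝ} (hN : IsNullC DiscF Nl)
    (hp : ∀ (X : ℂ → ℂ) (x₁ x₂ : ℝ), NiceX X x₁ x₂ → ∀ ξ ∈ Icc x₁ x₂,
      ∀ η ∈ Icc (0:ℝ) π, Real.sin η * ‖X (pt ξ η)‖ ≤ 9 →
      Real.sin η * ‖deriv X (pt ξ η) / X (pt ξ η)‖ ≤ 38 → ∃ l₀ l₁ l₂ : ℝ,
      0 ≤ l₀ ∧ l₀ ≤ B ∧ 0 ≤ l₁ ∧ l₁ ≤ B ∧ 0 ≤ l₂ ∧ l₂ ≤ B ∧
      Pool.Agent.Helper69.EK7.T2 (fun m _ => G m) X ξ η +
        l₀ * (1 - (Real.sin η * ‖X (pt ξ η)‖) ^ 2) +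
        l₁ * (16 - ‖Pool.Agent.Helper69.EK3.dA 1 (X (pt ξ η)) (deriv X (pt ξ η)) (Real.sin η)
          (Real.cos η)‖ ^ 2) +
        l₂ * (16 - ‖Pool.Agent.Helper69.EK3.dA (-1) (X (pt ξ η)) (deriv X (pt ξ η)) (Real.sin η)
          (Real.cos η)‖ ^ 2) ≤
      k₂ * fu u (X (pt ξ η)) + lam * (‖X (pt ξ η)‖ ^ 2 - (X (pt ξ η)).re) + dl +
        Nl X ξ η + MtC M (Pool.Agent.Helper97.CKC.tau κ dl u) X ξ η)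
    {t : ℂ} (ht : κ ≤ ‖t‖) (htu : t = -((‖t‖ : ℂ) * conj u)) {e : ℝ} (he : 0 < e) :
    Pool.Agent.Helper58.CKC.SigC t (‖t‖ - 1 + dl + e) :=
  have hMb : 0 ≤ Mb := (norm_nonneg _).trans (Pool.Agent.Helper69.CK.Mh_le hM (fun _ => 0) 0)
  Pool.Agent.Helper52.CKC.main_of_ptC hu h1 hdl hMb hMb2 hG
    (fun _ _ h => Pool.Agent.Helper69.CK.Mh_cont hM h.toExt)
    (Pool.Agent.Helper69.CK.Mh_le hM)
    (pt_C hu line hB hlam hk₂ hdl hκ hG hM hε₀ hN hp) ht htu he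

/-- a pointwise certificate in the direction `u`, exact power (no excess) -/
def PointC (κ : ℝ) (u : ℂ) : Prop :=
  ∃ (k₂ lam L₀ B Mb Lm ε₀ : ℝ) (G M M' : ℂ → ℂ) (Nl : (ℂ → ℂ) → ℝ → ℝ → ℝ),
    0 ≤ B ∧ 0 ≤ lam ∧ lam ≤ k₂ ∧ k₂ < 2 * κ ∧ GLip G L₀ ∧ MOk M M' Mb Lm ε₀ ∧ Mb < 2 * κ ∧
    0 < ε₀ ∧ IsNullC DiscF Nl ∧
    ∀ (X : ℂ → ℂ) (x₁ x₂ : ℝ), NiceX X x₁ x₂ → ∀ ξ ∈ Icc x₁ x₂,
      ∀ η ∈ Icc (0:ℝ) π, Real.sin η * ‖X (pt ξ η)‖ ≤ 9 →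
      Real.sin η * ‖deriv X (pt ξ η) / X (pt ξ η)‖ ≤ 38 → ∃ l₀ l₁ l₂ : ℝ,
      0 ≤ l₀ ∧ l₀ ≤ B ∧ 0 ≤ l₁ ∧ l₁ ≤ B ∧ 0 ≤ l₂ ∧ l₂ ≤ B ∧
      Pool.Agent.Helper69.EK7.T2 (fun m _ => G m) X ξ η +
        l₀ * (1 - (Real.sin η * ‖X (pt ξ η)‖) ^ 2) +
        l₁ * (16 - ‖Pool.Agent.Helper69.EK3.dA 1 (X (pt ξ η)) (deriv X (pt ξ η)) (Real.sin η)
          (Real.cos η)‖ ^ 2) +
        l₂ * (16 - ‖Pool.Agent.Helper69.EK3.dA (-1) (X (pt ξ η)) (deriv X (pt ξ η)) (Real.sin η)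
          (Real.cos η)‖ ^ 2) ≤
      k₂ * fu u (X (pt ξ η)) + lam * (‖X (pt ξ η)‖ ^ 2 - (X (pt ξ η)).re) +
        Nl X ξ η + MtC M (Pool.Agent.Helper97.CKC.tau κ 0 u) X ξ η

theorem sigC_of_pointC {κ : ℝ} {u : ℂ} (hu : ‖u‖ = 1) (line : LineC u) (h1 : 1 ≤ κ)
    (H : PointC κ u) {t : ℂ} (ht : κ ≤ ‖t‖) (htu : t = -((‖t‖ : ℂ) * conj u)) {e : ℝ}
    (he : 0 < e) : Pool.Agent.Helper58.CKC.SigC t (‖t‖ - 1 + e) := by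
  obtain ⟨k₂, lam, L₀, B, Mb, Lm, ε₀, G, M, M', Nl, hB, hlam, hk₂, hκ, hG, hM, hMb2, hε₀, hN,
    hp⟩ := H
  have h := sigC_of_point (dl := 0) hu line h1 hB hlam hk₂ le_rfl hκ hG hM hMb2 hε₀ hN
    (fun X x₁ x₂ hX ξ hξ η hη c1 c2 => by
      obtain ⟨l₀, l₁, l₂, a0, b0, a1, b1, a2, b2, h⟩ := hp X x₁ x₂ hX ξ hξ η hη c1 c2
      exact ⟨l₀, l₁, l₂, a0, b0, a1, b1, a2, b2, by rw [add_zero]; exact h⟩) ht htu he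
  rwa [add_zero] at h

theorem norm_ud (ta : ℝ) : ‖(1 + (ta : ℂ) * I) / (1 - (ta : ℂ) * I)‖ = 1 := by
  have h : (1 : ℂ) - (ta : ℂ) * I = conj (1 + (ta : ℂ) * I) := by
    rw [map_add, map_one, map_mul, Complex.conj_ofReal, conj_I]
    ring
  have hne : (1 : ℂ) + (ta : ℂ) * I ≠ 0 := by
    intro h
    have := congrArg Complex.re h
    simp at this
  rw [norm_div, h, RCLike.norm_conj, div_self (norm_ne_zero_iff.2 hne)]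

/-- **a sector from the pointwise certificates of its directions** -/
theorem secH_of_point {a b T : ℝ} (line : ∀ u : ℂ, ‖u‖ = 1 → LineC u) (ha : 1 ≤ a) (hb : 0 ≤ b)
    (H : ∀ ta : ℝ, 0 ≤ ta → ta ≤ T →
      PointC (a + b * ta ^ 2) ((1 + (ta : ℂ) * I) / (1 - (ta : ℂ) * I))) : SecH a b T := by
  intro ta h0 h1 t ht htu e he
  have hb2 : 0 ≤ b * ta ^ 2 := mul_nonneg hb (sq_nonneg _)
  exact sigC_of_pointC (norm_ud ta) (line _ (norm_ud ta)) (by linarith) (H ta h0 h1) ht htu he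

end Pool.Agent.Helper33.CKC
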